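import Pool.Agent.N402.P15.C1BE

/-!
# The character sum over the cusps for a modulus `n = q2 N * k`, `k` odd and squarefree, and the
character `c2 N` at `2` (the proof of `N402/P15/C1BE`, hypotheses relaxed)
-/

set_option autoImplicit false

namespace Pool.Agent.N971.C1

open Finset
open Pool.Agent.N969.P15
open Pool.Agent.N402.P15

/-- `n` is even, with the power of `2` prescribed by the conductor of `c2 N` -/
def E2 (N n : ℕ) : Prop := ∃ k : ℕ, k % 2 = 1 ∧ Squarefree k ∧ n = q2 N * k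

theorem e2_struct {N n : ℕ} (hn : E2 N n) : 0 < n ∧
    n = q2 N * ∏ p ∈ n.primeFactors.erase 2, p ∧
    Nat.Coprime (q2 N) (∏ p ∈ n.primeFactors.erase 2, p) ∧
    (∀ p ∈ n.primeFactors.erase 2, p.Prime ∧ p % 2 = 1 ∧ p ∣ n) ∧
    (∀ p, p.Prime → p ∣ n → p ∣ n / 2) := by
  obtain ⟨k, hk2, hksq, hk⟩ := hn
  have hk0 : k ≠ 0 := by rintro rfl; omega
  have hq := q2_pos N
  have hpos : 0 < n := by rw [hk]; exact Nat.mul_pos hq (Nat.pos_of_ne_zero hk0)
  have hpf : n.primeFactors.erase 2 = k.primeFactors := by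
    ext p
    rw [Finset.mem_erase, Nat.mem_primeFactors, Nat.mem_primeFactors]
    constructor
    · rintro ⟨h1, h2, h3, h4⟩
      refine ⟨h2, ?_, hk0⟩
      rw [hk] at h3
      rcases (Nat.Prime.dvd_mul h2).1 h3 with h | h
      · exfalso
        have h5 : p ∣ 2 ^ 3 := by
          have := h.trans (q2_dvd8 N)
          simpa using this
        exact h1 ((Nat.prime_dvd_prime_iff_eq h2 Nat.prime_two).1 (h2.dvd_of_dvd_pow h5))
      · exact h
    · rintro ⟨h1, h2, h3⟩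
      refine ⟨?_, h1, ?_, hpos.ne'⟩
      · rintro rfl; omega
      · rw [hk]; exact Dvd.dvd.mul_left h2 _
  have hprod : ∏ p ∈ n.primeFactors.erase 2, p = k := by
    rw [hpf]; exact Nat.prod_primeFactors_of_squarefree hksq
  refine ⟨hpos, ?_, ?_, ?_, ?_⟩
  · rw [hprod]; exact hk
  · rw [hprod]
    have h8 : Nat.Coprime 8 k := by
      have : Nat.Coprime (2 ^ 3) k := Nat.Coprime.pow_left 3
        ((Nat.Prime.coprime_iff_not_dvd Nat.prime_two).2 (by omega))
      simpa using this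
    exact Nat.Coprime.coprime_dvd_left (q2_dvd8 _) h8
  · intro p hp
    rw [Finset.mem_erase] at hp
    have hpp := Nat.prime_of_mem_primeFactors hp.2
    refine ⟨hpp, ?_, Nat.dvd_of_mem_primeFactors hp.2⟩
    rcases hpp.eq_two_or_odd with h | h
    · exact absurd h hp.1
    · exact h
  · intro p hp hpn
    rw [hk] at hpn ⊢
    have hq4 : q2 N = 4 ∨ q2 N = 8 := by
      unfold q2
      split_ifs
      · exact Or.inl rfl
      · exact Or.inr rfl
    have key : ∀ j : ℕ, 0 < j → p ∣ 2 ^ (j + 1) * k → p ∣ 2 ^ j * k := by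
      intro j hj h
      rcases (Nat.Prime.dvd_mul hp).1 h with h | h
      · have h2 : p ∣ 2 := hp.dvd_of_dvd_pow h
        exact Dvd.dvd.mul_right (h2.trans (dvd_pow_self 2 hj.ne')) k
      · exact Dvd.dvd.mul_left h _
    rcases hq4 with h | h
    · rw [h] at hpn ⊢
      have e : 4 * k / 2 = 2 ^ 1 * k := by omega
      rw [e]
      exact key 1 one_pos (by norm_num; exact hpn)
    · rw [h] at hpn ⊢
      have e : 8 * k / 2 = 2 ^ 2 * k := by omega
      rw [e]
      exact key 2 two_pos (by norm_num; exact hpn)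

theorem c2_half {N n : ℕ} (hn : E2 N n) {x : ℤ} (hx : x % 2 = 1) :
    c2 N (x + (n / 2 : ℕ)) = - c2 N x := by
  obtain ⟨k, hk2, -, hk⟩ := hn
  have hx0 : ¬ x % 2 = 0 := by omega
  unfold q2 at hk
  by_cases h1 : N % 16 = 4
  · rw [if_pos h1] at hk
    have e : n / 2 = 2 * k := by omega
    rw [e]
    unfold c2
    have e0 : ¬ (x + ((2 * k : ℕ) : ℤ)) % 2 = 0 := by omega
    rw [if_neg e0, if_neg hx0, if_pos h1, if_pos h1]
    by_cases h2 : x % 4 = 1
    · rw [if_pos h2, if_neg (by omega)]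
    · rw [if_neg h2, if_pos (by omega)]; norm_num
  · rw [if_neg h1] at hk
    have e : n / 2 = 4 * k := by omega
    rw [e]
    unfold c2
    have e0 : ¬ (x + ((4 * k : ℕ) : ℤ)) % 2 = 0 := by omega
    rw [if_neg e0, if_neg hx0, if_neg h1, if_neg h1]
    by_cases h2 : N % 32 = 8
    · rw [if_pos h2, if_pos h2]
      by_cases h3 : x % 8 = 1 ∨ x % 8 = 3
      · rw [if_pos h3, if_neg (by omega)]
      · rw [if_neg h3, if_pos (by omega)]; norm_num
    · rw [if_neg h2, if_neg h2]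
      by_cases h3 : x % 8 = 1 ∨ x % 8 = 7
      · rw [if_pos h3, if_neg (by omega)]
      · rw [if_neg h3, if_pos (by omega)]; norm_num

/-- the sum vanishes if both `a` and `a'` are even -/
theorem both_even {N n : ℕ} (hn : E2 N n) {a a' X Y : ℕ} (ha : a % 2 = 0) (ha' : a' % 2 = 0) :
    ∑ u ∈ (un n).filter (fun u : ℕ => (n : ℤ) ∣ (a : ℤ) * (u : ℤ) + (X : ℤ) ∧
      (n : ℤ) ∣ (a' : ℤ) * (u : ℤ) - (Y : ℤ)),
      c2 N u * ∏ p ∈ n.primeFactors.erase 2, jacobiSym u p = 0 := by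
  obtain ⟨hpos, hfac, -, hP, hdiv⟩ := e2_struct hn
  have hn2 : 2 ∣ n := (two_dvd_q2 N).trans (Dvd.intro _ hfac.symm)
  have hnn : 2 * (n / 2) = n := Nat.mul_div_cancel' hn2
  have hodd : ∀ u : ℕ, Nat.Coprime u n → u % 2 = 1 := by
    intro u hu
    by_contra h
    have h1 : 2 ∣ u := by omega
    have h2 : 2 ∣ Nat.gcd u n := Nat.dvd_gcd h1 hn2
    rw [hu] at h2
    omega
  have hhalf : ∀ {x : ℤ}, x % 2 = 1 → c2 N (x + (n / 2 : ℕ)) = - c2 N x := fun hx => c2_half hn hx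
  obtain ⟨c, hc⟩ : ∃ c : ℕ, c = n / 2 := ⟨_, rfl⟩
  rw [← hc] at hnn hdiv
  simp only [← hc] at hhalf
  -- the shift
  have hsh : ∀ u : ℕ, ∃ k : ℤ, (((u + c) % n : ℕ) : ℤ) = (u : ℤ) + (c : ℕ) - n * k := by
    intro u
    refine ⟨(((u + c) / n : ℕ) : ℤ), ?_⟩
    have := Nat.mod_add_div (u + c) n
    have h2 : (((u + c) % n : ℕ) : ℤ) + n * (((u + c) / n : ℕ) : ℤ) = u + (c : ℕ) := by
      exact_mod_cast this
    linarith
  refine Finset.sum_involution (fun u _ => (u + c) % n) ?_ ?_ ?_ ?_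
  · -- the values cancel
    intro u hu
    rw [Finset.mem_filter, un, Finset.mem_filter] at hu
    have hu1 := hodd u hu.1.2
    obtain ⟨k, hk⟩ := hsh u
    have c1 : c2 N (((u + c) % n : ℕ) : ℤ) = - c2 N u := by
      rw [← hhalf (x := (u : ℤ)) (by omega)]
      apply c2_congr
      rw [hk]
      have e : (u : ℤ) + (c : ℕ) - n * k - (u + (c : ℕ)) = - (n * k) := by ring
      rw [e]
      have hq : (q2 N : ℤ) ∣ (n : ℤ) := by
        have : q2 N ∣ n := Dvd.intro _ hfac.symm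
        exact_mod_cast this
      exact (Dvd.dvd.mul_right hq k).neg_right
    have c3 : ∏ p ∈ n.primeFactors.erase 2, jacobiSym (((u + c) % n : ℕ) : ℤ) p =
        ∏ p ∈ n.primeFactors.erase 2, jacobiSym u p := by
      refine Finset.prod_congr rfl fun p hp => ?_
      obtain ⟨h1, h2, h3⟩ := hP p hp
      apply jac_congr
      rw [hk]
      have e : (u : ℤ) + (c : ℕ) - n * k - u = (c : ℕ) - n * k := by ring
      rw [e]
      have h4 : (p : ℤ) ∣ ((c : ℕ) : ℤ) := by exact_mod_cast hdiv p h1 h3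
      have h5 : (p : ℤ) ∣ (n : ℤ) := by exact_mod_cast h3
      exact dvd_sub h4 (Dvd.dvd.mul_right h5 k)
    rw [c1, c3]; ring
  · -- no fixed point
    intro u hu _ heq
    rw [Finset.mem_filter, un, Finset.mem_filter, Finset.mem_range] at hu
    have hlt := hu.1.1
    have h2 : 0 < c := by omega
    rcases Nat.lt_or_ge (u + c) n with h | h
    · rw [Nat.mod_eq_of_lt h] at heq; omega
    · rw [Nat.mod_eq_sub_mod h, Nat.mod_eq_of_lt (by omega)] at heq; omega
  · -- membership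
    intro u hu
    rw [Finset.mem_filter, un, Finset.mem_filter, Finset.mem_range] at hu ⊢
    obtain ⟨⟨h1, h2⟩, h3, h4⟩ := hu
    obtain ⟨k, hk⟩ := hsh u
    refine ⟨⟨Nat.mod_lt _ hpos, ?_⟩, ?_, ?_⟩
    · rw [Nat.coprime_iff_gcd_eq_one]
      by_contra hcon
      obtain ⟨p, hp, hpd⟩ := Nat.exists_prime_and_dvd hcon
      have d1 : p ∣ n := hpd.trans (Nat.gcd_dvd_right _ _)
      have d2' : p ∣ (u + c) % n := hpd.trans (Nat.gcd_dvd_left _ _)
      have d2 : p ∣ u + c := (Nat.dvd_mod_iff d1).1 d2'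
      have d3 : p ∣ u := (Nat.dvd_add_left (hdiv p hp d1)).1 d2
      have d4 : p ∣ Nat.gcd u n := Nat.dvd_gcd d3 d1
      rw [h2] at d4
      exact hp.one_lt.ne' (Nat.dvd_one.1 d4)
    · rw [hk]
      obtain ⟨b, hb⟩ : ∃ b : ℕ, a = 2 * b := ⟨a / 2, by omega⟩
      have hnz : (n : ℤ) = 2 * ((c : ℕ) : ℤ) := by exact_mod_cast hnn.symm
      have e : (a : ℤ) * ((u : ℤ) + (c : ℕ) - n * k) + X =
        (a * u + X) + n * (b - a * k) := by
        rw [hb]
        push_cast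
        linear_combination (-(b : ℤ)) * hnz
      rw [e]
      exact dvd_add h3 (Dvd.intro _ rfl)
    · rw [hk]
      obtain ⟨b, hb⟩ : ∃ b : ℕ, a' = 2 * b := ⟨a' / 2, by omega⟩
      have hnz : (n : ℤ) = 2 * ((c : ℕ) : ℤ) := by exact_mod_cast hnn.symm
      have e : (a' : ℤ) * ((u : ℤ) + (c : ℕ) - n * k) - Y =
        (a' * u - Y) + n * (b - a' * k) := by
        rw [hb]
        push_cast
        linear_combination (-(b : ℤ)) * hnz
      rw [e]
      exact dvd_add h4 (Dvd.intro _ rfl)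
  · -- involution
    intro u hu
    rw [Finset.mem_filter, un, Finset.mem_filter, Finset.mem_range] at hu
    have hlt := hu.1.1
    rw [Nat.mod_add_mod]
    have : u + c + c = u + n := by omega
    rw [this, Nat.add_mod_right, Nat.mod_eq_of_lt hlt]

/-- **the character sum, even modulus** -/
theorem sum_even {N n : ℕ} (hn : E2 N n) {M : ℕ} (hnM : n ∣ M)
    (hpM : ∀ p ∈ n.primeFactors.erase 2, ¬ p ^ 2 ∣ M) (a a' X Y : ℕ) (hdet : a * Y + a' * X = M) :
    ∑ u ∈ (un n).filter (fun u : ℕ => (n : ℤ) ∣ (a : ℤ) * (u : ℤ) + (X : ℤ) ∧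
      (n : ℤ) ∣ (a' : ℤ) * (u : ℤ) - (Y : ℤ)),
      c2 N u * ∏ p ∈ n.primeFactors.erase 2, jacobiSym u p =
      psp2 N a a' Y X * ∏ p ∈ n.primeFactors.erase 2, psp p a a' Y X := by
  classical
  obtain ⟨hpos, hfac, hcop, hP, hdiv⟩ := e2_struct hn
  by_cases hpar : a % 2 = 1 ∨ a' % 2 = 1
  swap
  · push Not at hpar
    rw [both_even hn (by omega) (by omega)]
    have : psp2 N a a' Y X = 0 := by
      unfold psp2
      rw [if_neg hpar.1, if_neg hpar.2]
    rw [this, zero_mul]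
  set P := n.primeFactors.erase 2 with hPdef
  set k := ∏ p ∈ P, p with hkdef
  set F := (un n).filter (fun u : ℕ => (n : ℤ) ∣ (a : ℤ) * (u : ℤ) + (X : ℤ) ∧
    (n : ℤ) ∣ (a' : ℤ) * (u : ℤ) - (Y : ℤ)) with hF
  have hqn : q2 N ∣ n := Dvd.intro _ hfac.symm
  have hkn : k ∣ n := Dvd.intro_left _ hfac.symm
  have hqz : (q2 N : ℤ) ∣ (n : ℤ) := by exact_mod_cast hqn
  have hpz : ∀ p ∈ P, (p : ℤ) ∣ (n : ℤ) := fun p hp => by exact_mod_cast (hP p hp).2.2
  have hqN : (q2 N : ℤ) ∣ ((a * Y + a' * X : ℕ) : ℤ) := by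
    rw [hdet]; exact_mod_cast hqn.trans hnM
  have h2 : ∀ p ∈ P, ¬ p ^ 2 ∣ a * Y + a' * X := fun p hp h => by
    rw [hdet] at h; exact hpM p hp h
  have h3 : ∀ p ∈ P, p ∣ a * Y + a' * X := fun p hp => by
    rw [hdet]; exact (hP p hp).2.2.trans hnM
  have hn2 : 2 ∣ n := (two_dvd_q2 N).trans hqn
  have hodd : ∀ u : ℕ, Nat.Coprime u n → u % 2 = 1 := by
    intro u hu
    by_contra h
    have h1 : 2 ∣ u := by omega
    have h2 : 2 ∣ Nat.gcd u n := Nat.dvd_gcd h1 hn2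
    rw [hu] at h2
    omega
  have hmem : ∀ u ∈ F, u < n ∧ u % 2 = 1 ∧ ((q2 N : ℤ) ∣ a * (u : ℤ) + X ∧
      (q2 N : ℤ) ∣ a' * (u : ℤ) - Y) ∧ ∀ p ∈ P, (p : ℤ) ∣ a * (u : ℤ) + X ∧
      (p : ℤ) ∣ a' * (u : ℤ) - Y ∧ ¬ (p : ℤ) ∣ (u : ℤ) := by
    intro u hu
    rw [hF, Finset.mem_filter, un, Finset.mem_filter, Finset.mem_range] at hu
    obtain ⟨⟨hu1, hu2⟩, hu3, hu4⟩ := hu
    refine ⟨hu1, hodd u hu2, ⟨hqz.trans hu3, hqz.trans hu4⟩,
      fun p hp => ⟨(hpz p hp).trans hu3, (hpz p hp).trans hu4, fun h => ?_⟩⟩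
    have h5 : p ∣ u := by exact_mod_cast h
    have h6 : p ∣ Nat.gcd u n := Nat.dvd_gcd h5 (hP p hp).2.2
    rw [hu2] at h6
    exact (hP p hp).1.one_lt.ne' (Nat.dvd_one.1 h6)
  have hval2 : ∀ u ∈ F, c2 N u = psp2 N a a' Y X := fun u hu =>
    c2_val hqN hpar (hmem u hu).2.2.1.1 (hmem u hu).2.2.1.2
  have hvalp : ∀ u ∈ F, ∀ p ∈ P, jacobiSym u p = psp p a a' Y X := by
    intro u hu p hp
    obtain ⟨h5, h6, h7⟩ := (hmem u hu).2.2.2 p hp
    exact local_eq (hP p hp).1 (h2 p hp) u h5 h6 h7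
  have hval : ∀ u ∈ F, c2 N u * ∏ p ∈ P, jacobiSym u p =
      psp2 N a a' Y X * ∏ p ∈ P, psp p a a' Y X := by
    intro u hu
    rw [hval2 u hu]
    congr 1
    exact Finset.prod_congr rfl fun p hp => hvalp u hu p hp
  by_cases hz : psp2 N a a' Y X = 0 ∨ ∃ p ∈ P, psp p a a' Y X = 0
  · have hFe : F = ∅ := by
      rw [Finset.eq_empty_iff_forall_notMem]
      intro u hu
      rcases hz with hz | ⟨p, hp, hp0⟩
      · have h8 := hval2 u hu
        rw [hz] at h8
        have := (hmem u hu).2.1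
        exact c2_ne N (x := (u : ℤ)) (by omega) h8
      · have h8 := hvalp u hu p hp
        rw [hp0] at h8
        exact jac_ne_zero (hP p hp).1 ((hmem u hu).2.2.2 p hp).2.2 h8
    rw [hFe, Finset.sum_empty]
    rcases hz with hz | ⟨p, hp, hp0⟩
    · rw [hz, zero_mul]
    · rw [Finset.prod_eq_zero hp hp0, mul_zero]
  · push Not at hz
    obtain ⟨hz2, hzp⟩ := hz
    have hex : ∀ p : ℕ, ∃ u : ℕ, p ∈ P → (p : ℤ) ∣ a * u + X ∧ (p : ℤ) ∣ a' * u - Y ∧
        ¬ (p : ℤ) ∣ u := by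
      intro p
      by_cases hp : p ∈ P
      · obtain ⟨u, hu⟩ := local_ex (hP p hp).1 (h3 p hp) (hzp p hp)
        exact ⟨u, fun _ => hu⟩
      · exact ⟨0, fun h => absurd h hp⟩
    choose f hf using hex
    obtain ⟨w, hw⟩ := Nat.chineseRemainderOfFinset f (fun p => p) P
      (fun p hp => (hP p hp).1.ne_zero) (by
        intro p hp q hq hpq
        exact (Nat.coprime_primes (hP p hp).1 (hP q hq).1).2 hpq)
    obtain ⟨v2, hv2, hv3, hv4⟩ := two_ex hqN hz2
    obtain ⟨w', hw1, hw2⟩ := Nat.chineseRemainder hcop v2 w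
    set u := w' % n with hu
    have hu2 : u ≡ v2 [MOD q2 N] := ((Nat.mod_modEq w' n).of_dvd hqn).trans hw1
    have huk : ∀ p ∈ P, u ≡ f p [MOD p] := by
      intro p hp
      have hpk : p ∣ k := Finset.dvd_prod_of_mem _ hp
      exact (((Nat.mod_modEq w' n).of_dvd (hpk.trans hkn)).trans (hw2.of_dvd hpk)).trans (hw p hp)
    have hup : ∀ p ∈ P, (p : ℤ) ∣ (u : ℤ) - f p := by
      intro p hp
      have h6 := (Nat.modEq_iff_dvd.1 (huk p hp))
      have : (u : ℤ) - f p = -((f p : ℤ) - u) := by ring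
      rw [this]
      exact h6.neg_right
    have huq : (q2 N : ℤ) ∣ (u : ℤ) - v2 := by
      have h6 := (Nat.modEq_iff_dvd.1 hu2)
      have : (u : ℤ) - v2 = -((v2 : ℤ) - u) := by ring
      rw [this]
      exact h6.neg_right
    have hloc : ∀ p ∈ P, (p : ℤ) ∣ a * (u : ℤ) + X ∧ (p : ℤ) ∣ a' * (u : ℤ) - Y ∧
        ¬ (p : ℤ) ∣ (u : ℤ) := by
      intro p hp
      obtain ⟨h5, h6, h7⟩ := hf p hp
      have h8 := hup p hp
      refine ⟨?_, ?_, fun h => h7 ?_⟩
      · have : (a : ℤ) * (u : ℤ) + X = a * ((u : ℤ) - f p) + (a * f p + X) := by ring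
        rw [this]; exact dvd_add (Dvd.dvd.mul_left h8 _) h5
      · have : (a' : ℤ) * (u : ℤ) - Y = a' * ((u : ℤ) - f p) + (a' * f p - Y) := by ring
        rw [this]; exact dvd_add (Dvd.dvd.mul_left h8 _) h6
      · exact dsr h h8
    have hloc2 : (q2 N : ℤ) ∣ a * (u : ℤ) + X ∧ (q2 N : ℤ) ∣ a' * (u : ℤ) - Y := by
      constructor
      · have : (a : ℤ) * (u : ℤ) + X = a * ((u : ℤ) - v2) + (a * v2 + X) := by ring
        rw [this]; exact dvd_add (Dvd.dvd.mul_left huq _) hv3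
      · have : (a' : ℤ) * (u : ℤ) - Y = a' * ((u : ℤ) - v2) + (a' * v2 - Y) := by ring
        rw [this]; exact dvd_add (Dvd.dvd.mul_left huq _) hv4
    have hudd : u % 2 = 1 := by
      have h9 : u ≡ v2 [MOD 2] := hu2.of_dvd (two_dvd_q2 N)
      have : u % 2 = v2 % 2 := h9
      omega
    have hcopz : IsCoprime (q2 N : ℤ) (k : ℤ) := Nat.isCoprime_iff_coprime.2 hcop
    have hjoin : ∀ x : ℤ, (q2 N : ℤ) ∣ x → (∀ p ∈ P, (p : ℤ) ∣ x) → (n : ℤ) ∣ x := by
      intro x hx1 hx2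
      have h9 : (k : ℤ) ∣ x := pr_dvd_int (fun p hp => (hP p hp).1) hx2
      have h10 := hcopz.mul_dvd hx1 h9
      have e : (n : ℤ) = (q2 N : ℤ) * (k : ℤ) := by
        rw [← Nat.cast_mul]
        exact congrArg (fun z : ℕ => (z : ℤ)) hfac
      rw [e]
      exact h10
    have huF : u ∈ F := by
      rw [hF, Finset.mem_filter, un, Finset.mem_filter, Finset.mem_range]
      refine ⟨⟨Nat.mod_lt _ hpos, ?_⟩, hjoin _ hloc2.1 fun p hp => (hloc p hp).1,
        hjoin _ hloc2.2 fun p hp => (hloc p hp).2.1⟩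
      rw [Nat.coprime_iff_gcd_eq_one]
      by_contra hcon
      obtain ⟨p, hp, hpd⟩ := Nat.exists_prime_and_dvd hcon
      have d1 : p ∣ n := hpd.trans (Nat.gcd_dvd_right _ _)
      have d2 : p ∣ u := hpd.trans (Nat.gcd_dvd_left _ _)
      by_cases hp2 : p = 2
      · rw [hp2] at d2; omega
      · have hpP : p ∈ P := by
          rw [hPdef, Finset.mem_erase, Nat.mem_primeFactors]
          exact ⟨hp2, hp, d1, hpos.ne'⟩
        exact (hloc p hpP).2.2 (by exact_mod_cast d2)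
    have hFs : F = {u} := by
      rw [Finset.eq_singleton_iff_unique_mem]
      refine ⟨huF, fun v hv => ?_⟩
      obtain ⟨hv1, hv2', hv3', hv4'⟩ := hmem v hv
      have h5 : (n : ℤ) ∣ (v : ℤ) - u := hjoin _
        (two_uniq hpar hv3'.1 hv3'.2 hloc2.1 hloc2.2) fun p hp =>
        local_uniq (hP p hp).1 (h2 p hp) v u (hv4' p hp).1 (hv4' p hp).2.1 (hloc p hp).1
          (hloc p hp).2.1
      have h6 : v ≡ u [MOD n] := by
        rw [Nat.modEq_iff_dvd]
        have : (u : ℤ) - v = -((v : ℤ) - u) := by ring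
        rw [this]; exact h5.neg_right
      have h7 : v % n = u % n := h6
      rw [Nat.mod_eq_of_lt hv1, Nat.mod_eq_of_lt (Nat.mod_lt _ hpos)] at h7
      exact h7
    rw [hFs, Finset.sum_singleton]
    exact hval u huF

/-- the quadratic character -/
def chi (N n : ℕ) (u : ℤ) : ℤ :=
  (if 2 ∣ n then c2 N u else 1) * ∏ p ∈ n.primeFactors.erase 2, jacobiSym u p

/-- the right kernel symbols -/
def Rk (N n a a' Y X : ℕ) : ℤ :=
  ∏ p ∈ n.primeFactors, if p = 2 then psp2 N a a' Y X else psp p a a' Y X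

/-- the moduli -/
def Md (N n : ℕ) : Prop := (¬ 2 ∣ n ∧ Squarefree n) ∨ E2 N n

/-- **the character sum** -/
theorem sum_chi {N n : ℕ} (hn : Md N n) {M : ℕ} (hnM : n ∣ M)
    (hpM : ∀ p ∈ n.primeFactors.erase 2, ¬ p ^ 2 ∣ M) (a a' X Y : ℕ) (hdet : a * Y + a' * X = M) :
    ∑ u ∈ (un n).filter (fun u : ℕ => (n : ℤ) ∣ (a : ℤ) * (u : ℤ) + (X : ℤ) ∧
      (n : ℤ) ∣ (a' : ℤ) * (u : ℤ) - (Y : ℤ)), chi N n u = Rk N n a a' Y X := by
  rcases hn with ⟨h2, hsq⟩ | hn
  · have he : n.primeFactors.erase 2 = n.primeFactors :=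
      Finset.erase_eq_of_notMem fun h => h2 (Nat.dvd_of_mem_primeFactors h)
    rw [he] at hpM
    have hprod : ∏ p ∈ n.primeFactors, p = n := Nat.prod_primeFactors_of_squarefree hsq
    have key := gen_C1B n.primeFactors (fun p hp => Nat.prime_of_mem_primeFactors hp) a a' X Y M
      hdet (fun p hp => ⟨(Nat.dvd_of_mem_primeFactors hp).trans hnM, hpM p hp⟩)
    rw [hprod] at key
    unfold Rk
    have e9 : ∏ p ∈ n.primeFactors, (if p = 2 then psp2 N a a' Y X else psp p a a' Y X) =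
        ∏ p ∈ n.primeFactors, psp p a a' Y X := by
      refine Finset.prod_congr rfl fun p hp => ?_
      have hp2 : p ≠ 2 := by
        rintro rfl
        exact h2 (Nat.dvd_of_mem_primeFactors hp)
      rw [if_neg hp2]
    rw [e9, ← key]
    refine Finset.sum_congr rfl fun u _ => ?_
    unfold chi
    rw [if_neg h2, one_mul, he]
    conv_rhs => rw [← hprod]
    rw [jac_pr fun p hp => Nat.prime_of_mem_primeFactors hp]
  · have h2 : 2 ∣ n := by
      obtain ⟨k, -, -, hk⟩ := hn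
      rw [hk]
      exact (two_dvd_q2 N).mul_right k
    have hn0 : n ≠ 0 := (e2_struct hn).1.ne'
    have hm : 2 ∈ n.primeFactors := Nat.mem_primeFactors.2 ⟨Nat.prime_two, h2, hn0⟩
    unfold Rk chi
    rw [← Finset.mul_prod_erase _ _ hm, if_pos rfl]
    have e9 : ∏ p ∈ n.primeFactors.erase 2, (if p = 2 then psp2 N a a' Y X else psp p a a' Y X) =
        ∏ p ∈ n.primeFactors.erase 2, psp p a a' Y X := by
      refine Finset.prod_congr rfl fun p hp => ?_
      rw [Finset.mem_erase] at hp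
      rw [if_neg hp.1]
    rw [e9, ← sum_even hn hnM hpM a a' X Y hdet]
    simp only [if_pos h2]

end Pool.Agent.N971.C1
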