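import Pool.Agent.N973.P15.C1A

/-!
# The factorizations of the forms of square discriminant and the cusps (no level)
-/

set_option autoImplicit false

namespace Pool.Agent.N971.C1

open Finset
open Pool.Agent.N969.P15 (un)
open Pool.Agent.N973.P15.C (inj_gen exists_fac sign_of fo)

/-- the factorizations `(a x + c y) (a' x + c' y)` of determinant `d` -/
def FF (d x n : ℤ) : Set (ℤ × ℤ × ℤ × ℤ) :=
  {t | 0 < t.1 ∧ 0 < t.2.1 ∧
    t.1 * t.2.2.2 - t.2.1 * t.2.2.1 = d ∧ 0 < -(t.1 * x + t.2.2.1 * n) ∧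
    0 < t.2.1 * x + t.2.2.2 * n}

/-- the set of factorization data -/
def Om (N : ℕ) : Finset (Σ _ : ℕ, ℕ × ℕ) :=
  (range N).sigma fun T => (N - T).divisors ×ˢ T.divisors

/-- the condition on the cusp -/
def Cd (n N : ℕ) (x : ℤ) (w : Σ _ : ℕ, ℕ × ℕ) : Prop :=
  (n : ℤ) ∣ (w.2.1 : ℤ) * x + ((w.1 / w.2.2 : ℕ) : ℤ) ∧
  (n : ℤ) ∣ (w.2.2 : ℤ) * x - (((N - w.1) / w.2.1 : ℕ) : ℤ)

instance (n N : ℕ) (x : ℤ) (w : Σ _ : ℕ, ℕ × ℕ) : Decidable (Cd n N x w) := by
  unfold Cd; infer_instance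

/-- the factorization attached to the data -/
def fw (n N : ℕ) (x : ℤ) (w : Σ _ : ℕ, ℕ × ℕ) : ℤ × ℤ × ℤ × ℤ :=
  (w.2.1, w.2.2, (-((w.1 / w.2.2 : ℕ) : ℤ) - (w.2.1 : ℤ) * x) / n,
    ((((N - w.1) / w.2.1 : ℕ) : ℤ) - (w.2.2 : ℤ) * x) / n)

/-- the facts about the data -/
structure Fc (n N : ℕ) (x : ℤ) (T a a' : ℕ) (X Y : ℕ) (c c' : ℤ) : Prop where
  hX : T / a' = X
  hY : (N - T) / a = Y
  hT : T = a' * X
  hS : N - T = a * Y
  h3 : (a : ℤ) * Y + a' * X = N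
  pa : 0 < a
  pa' : 0 < a'
  pX : 0 < X
  pY : 0 < Y
  hc : -(X : ℤ) - a * x = n * c
  hc' : (Y : ℤ) - a' * x = n * c'

theorem facts (n N : ℕ) (hn : 0 < n) (x : ℤ) (T a a' : ℕ) (h : (⟨T, (a, a')⟩ : Σ _ : ℕ, ℕ × ℕ) ∈ Om N)
    (hC : Cd n N x ⟨T, (a, a')⟩) : ∃ X Y : ℕ, ∃ c c' : ℤ, Fc n N x T a a' X Y c c' ∧
      fw n N x ⟨T, (a, a')⟩ = ((a : ℤ), (a' : ℤ), c, c') := by
  unfold Om at h
  simp only [Finset.mem_sigma, Finset.mem_range, Finset.mem_product,
    Nat.mem_divisors] at h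
  obtain ⟨hT, ⟨h1, h2⟩, ⟨h4, h5⟩⟩ := h
  obtain ⟨Y, hY⟩ := h1
  obtain ⟨X, hX⟩ := h4
  have pa : 0 < a := by
    rcases Nat.eq_zero_or_pos a with h | h
    · subst h; simp at hY; omega
    · exact h
  have pa' : 0 < a' := by
    rcases Nat.eq_zero_or_pos a' with h | h
    · subst h; simp at hX; exact absurd hX h5
    · exact h
  have eX : T / a' = X := by rw [hX]; exact Nat.mul_div_cancel_left _ pa'
  have eY : (N - T) / a = Y := by rw [hY]; exact Nat.mul_div_cancel_left _ pa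
  have pX : 0 < X := by
    rcases Nat.eq_zero_or_pos X with h | h
    · subst h; simp at hX; exact absurd hX h5
    · exact h
  have pY : 0 < Y := by
    rcases Nat.eq_zero_or_pos Y with h | h
    · subst h; simp at hY; omega
    · exact h
  have e3 : (a : ℤ) * Y + a' * X = N := by
    have : a * Y + a' * X = N := by omega
    exact_mod_cast this
  unfold Cd at hC
  simp only at hC
  rw [eX, eY] at hC
  obtain ⟨⟨k, hk⟩, ⟨k', hk'⟩⟩ := hC
  have hc : -(X : ℤ) - a * x = n * (-k) := by linear_combination -hk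
  have hc' : (Y : ℤ) - a' * x = n * (-k') := by linear_combination -hk'
  have hm' : (n : ℤ) ≠ 0 := by exact_mod_cast hn.ne'
  refine ⟨X, Y, -k, -k', ⟨eX, eY, hX, hY, e3, pa, pa', pX, pY, hc, hc'⟩, ?_⟩
  unfold fw
  simp only
  rw [eX, eY, hc, hc', Int.mul_ediv_cancel_left _ hm', Int.mul_ediv_cancel_left _ hm']

/-- the data and the factorizations -/
theorem bijOn (n d : ℕ) (hn : 0 < n) (x : ℤ) :
    Set.BijOn (fw n (d * n) x) ((Om (d * n)).filter (Cd n (d * n) x)) (FF d x n) := by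
  have hm' : (n : ℤ) ≠ 0 := by exact_mod_cast hn.ne'
  refine ⟨?_, ?_, ?_⟩
  · rintro ⟨T, a, a'⟩ hw
    rw [Finset.mem_coe, Finset.mem_filter] at hw
    obtain ⟨X, Y, c, c', f, hf⟩ := facts n (d * n) hn x T a a' hw.1 hw.2
    rw [hf]
    have e1 : (n : ℤ) * (a * c' - a' * c) = n * d := by
      have := f.h3
      push_cast at this
      linear_combination this - a * f.hc' + a' * f.hc
    have k1 : (0 : ℤ) < a := by exact_mod_cast f.pa
    have k2 : (0 : ℤ) < a' := by exact_mod_cast f.pa'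
    refine ⟨k1, k2, mul_left_cancel₀ hm' e1, ?_, ?_⟩
    · have : -((a : ℤ) * x + c * n) = X := by linear_combination f.hc
      show 0 < -((a : ℤ) * x + c * n)
      rw [this]
      exact_mod_cast f.pX
    · have : (a' : ℤ) * x + c' * n = Y := by linear_combination -f.hc'
      show 0 < (a' : ℤ) * x + c' * n
      rw [this]
      exact_mod_cast f.pY
  · rintro ⟨T, a, a'⟩ hw ⟨T1, a1, a1'⟩ hw1 e
    rw [Finset.mem_coe, Finset.mem_filter] at hw hw1
    obtain ⟨X, Y, c, c', f, hf⟩ := facts n (d * n) hn x T a a' hw.1 hw.2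
    obtain ⟨X1, Y1, c1, c1', f1, hf1⟩ := facts n (d * n) hn x T1 a1 a1' hw1.1 hw1.2
    rw [hf, hf1] at e
    simp only [Prod.mk.injEq] at e
    obtain ⟨e1, e2, e3, e4⟩ := e
    have k1 : a = a1 := by exact_mod_cast e1
    have k2 : a' = a1' := by exact_mod_cast e2
    subst k1 k2 e3 e4
    have k7 : X = X1 := by
      have h1 := f.hc
      have h2 := f1.hc
      have : (X : ℤ) = X1 := by linarith
      exact_mod_cast this
    have k8 : T = T1 := by rw [f.hT, f1.hT, k7]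
    subst k8
    rfl
  · rintro ⟨a, a', c, c'⟩ ⟨pa, pa', hdt, pX, pY⟩
    simp only at pa pa' hdt pX pY
    lift a to ℕ using pa.le with a
    lift a' to ℕ using pa'.le with a'
    obtain ⟨X, hX⟩ : ∃ X : ℤ, X = -((a : ℤ) * x + c * n) := ⟨_, rfl⟩
    obtain ⟨Y, hY⟩ : ∃ Y : ℤ, Y = (a' : ℤ) * x + c' * n := ⟨_, rfl⟩
    rw [← hX] at pX
    rw [← hY] at pY
    lift X to ℕ using pX.le with X
    lift Y to ℕ using pY.le with Y
    have e0 : (a : ℤ) * Y + a' * X = d * n := by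
      rw [hX, hY]
      linear_combination (n : ℤ) * hdt
    have e0' : a * Y + a' * X = d * n := by exact_mod_cast e0
    have na : 0 < a := by exact_mod_cast pa
    have na' : 0 < a' := by exact_mod_cast pa'
    have nX : 0 < X := by exact_mod_cast pX
    have nY : 0 < Y := by exact_mod_cast pY
    have eS : d * n - a' * X = a * Y := by omega
    have pXa : 0 < a' * X := Nat.mul_pos na' nX
    have pYa : 0 < a * Y := Nat.mul_pos na nY
    have e1 : (d * n - a' * X) / a = Y := by rw [eS]; exact Nat.mul_div_cancel_left _ na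
    have e2 : a' * X / a' = X := Nat.mul_div_cancel_left _ na'
    have e3 : -(X : ℤ) - a * x = n * c := by rw [hX]; ring
    have e4 : (Y : ℤ) - a' * x = n * c' := by rw [hY]; ring
    refine ⟨⟨a' * X, (a, a')⟩, ?_, ?_⟩
    · rw [Finset.mem_coe, Finset.mem_filter]
      refine ⟨?_, ?_⟩
      · unfold Om
        simp only [Finset.mem_sigma, Finset.mem_range, Finset.mem_product,
          Nat.mem_divisors]
        rw [eS]
        exact ⟨by omega, ⟨Dvd.intro _ rfl, by omega⟩, ⟨Dvd.intro _ rfl, by omega⟩⟩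
      · unfold Cd
        simp only
        rw [e1, e2]
        exact ⟨⟨-c, by linear_combination -e3⟩, ⟨-c', by linear_combination -e4⟩⟩
    · unfold fw
      simp only
      rw [e1, e2, e3, e4, Int.mul_ediv_cancel_left _ hm', Int.mul_ediv_cancel_left _ hm']

theorem FF_fin (n d : ℕ) (hn : 0 < n) (x : ℤ) : (FF d x n).Finite := by
  rw [← (bijOn n d hn x).image_eq]
  exact (Finset.finite_toSet _).image _

/-- translations of the cusp -/
theorem Cd_shift (n N : ℕ) (x k : ℤ) (w : Σ _ : ℕ, ℕ × ℕ) : Cd n N (x + n * k) w ↔ Cd n N x w := by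
  unfold Cd
  have e1 : (w.2.1 : ℤ) * (x + n * k) + ((w.1 / w.2.2 : ℕ) : ℤ) =
      (w.2.1 : ℤ) * x + ((w.1 / w.2.2 : ℕ) : ℤ) + n * (w.2.1 * k) := by ring
  have e2 : (w.2.2 : ℤ) * (x + n * k) - (((N - w.1) / w.2.1 : ℕ) : ℤ) =
      (w.2.2 : ℤ) * x - (((N - w.1) / w.2.1 : ℕ) : ℤ) + n * (w.2.2 * k) := by ring
  rw [e1, e2, Int.dvd_add_left (dvd_mul_right _ _), Int.dvd_add_left (dvd_mul_right _ _)]

/-- the reflection -/
def rf (t : ℤ × ℤ × ℤ × ℤ) : ℤ × ℤ × ℤ × ℤ := (t.2.1, t.1, -t.2.2.2, -t.2.2.1)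

theorem bij_rf (d x n : ℤ) : Set.BijOn rf (FF d x n) (FF d (-x) n) := by
  refine ⟨?_, ?_, ?_⟩
  · rintro ⟨a, a', c, c'⟩ ⟨pa, pa', hdt, pX, pY⟩
    simp only at pa pa' hdt pX pY
    refine ⟨pa', pa, ?_, ?_, ?_⟩
    · show a' * -c - a * -c' = d
      linear_combination hdt
    · show 0 < -(a' * -x + -c' * n)
      have e : -(a' * -x + -c' * n) = a' * x + c' * n := by ring
      rw [e]; exact pY
    · show 0 < a * -x + -c * n
      have e : a * -x + -c * n = -(a * x + c * n) := by ring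
      rw [e]; exact pX
  · rintro ⟨a, a', c, c'⟩ - ⟨a1, a1', c1, c1'⟩ - h
    simp only [rf, Prod.mk.injEq, neg_inj] at h
    obtain ⟨rfl, rfl, rfl, rfl⟩ := h
    rfl
  · rintro ⟨a, a', c, c'⟩ ⟨pa, pa', hdt, pX, pY⟩
    simp only at pa pa' hdt pX pY
    refine ⟨(a', a, -c', -c), ⟨pa', pa, ?_, ?_, ?_⟩, ?_⟩
    · show a' * -c - a * -c' = d
      linear_combination hdt
    · show 0 < -(a' * x + -c' * n)
      have e : -(a' * x + -c' * n) = a' * -x + c' * n := by ring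
      rw [e]; exact pY
    · show 0 < a * x + -c * n
      have e : a * x + -c * n = -(a * -x + c * n) := by ring
      rw [e]; exact pX
    · simp only [rf, neg_neg]

/-! ### the forms -/

/-- the forms of discriminant `d²` which change sign between `∞` and `x / n` -/
def SA (d x n : ℤ) : Set (ℤ × ℤ × ℤ) :=
  {q | q.2.1 ^ 2 - 4 * q.1 * q.2.2 = d ^ 2 ∧ 0 < q.1 ∧
    q.1 * x ^ 2 + q.2.1 * x * n + q.2.2 * n ^ 2 < 0}

/-- the forms and the primitive factorizations, `g` a function on the forms which vanishes if the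
form is not primitive at the primes dividing `d` -/
theorem bij_fo {d : ℤ} (hd : 0 < d) (x n : ℤ) (hn : 0 < n) {g : ℤ × ℤ × ℤ → ℤ}
    (hg : ∀ p : ℕ, p.Prime → (p : ℤ) ∣ d → ∀ q : ℤ × ℤ × ℤ, (p : ℤ) ∣ q.1 → (p : ℤ) ∣ q.2.2 →
      g q = 0) :
    Set.BijOn fo (FF d x n ∩ Function.support fun t => g (fo t))
      (SA d x n ∩ Function.support g) := by
  have hcop : ∀ {a a' c c' : ℤ}, a * c' - a' * c = d → g (fo (a, a', c, c')) ≠ 0 →
      IsCoprime a c := by
    intro a a' c c' hdt h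
    rw [Int.isCoprime_iff_gcd_eq_one]
    by_contra hgc
    obtain ⟨p, hp, hpg⟩ := Nat.exists_prime_and_dvd hgc
    have h1 : (p : ℤ) ∣ a := (by exact_mod_cast hpg : (p : ℤ) ∣ (Int.gcd a c : ℤ)).trans
      (Int.gcd_dvd_left ..)
    have h2 : (p : ℤ) ∣ c := (by exact_mod_cast hpg : (p : ℤ) ∣ (Int.gcd a c : ℤ)).trans
      (Int.gcd_dvd_right ..)
    refine h (hg p hp ?_ _ (h1.mul_right _) (h2.mul_right _))
    rw [← hdt]
    exact dvd_sub (h1.mul_right _) (h2.mul_left _)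
  refine ⟨?_, ?_, ?_⟩
  · rintro ⟨a, a', c, c'⟩ ⟨⟨pa, pa', hdt, pX, pY⟩, hs⟩
    simp only at pa pa' hdt pX pY
    have hform : a * a' * x ^ 2 + (a * c' + a' * c) * x * n + c * c' * n ^ 2 < 0 := by
      have e : a * a' * x ^ 2 + (a * c' + a' * c) * x * n + c * c' * n ^ 2 =
        -(-(a * x + c * n) * (a' * x + c' * n)) := by ring
      rw [e]
      have := mul_pos pX pY
      linarith
    refine ⟨⟨?_, mul_pos pa pa', hform⟩, hs⟩
    show (a * c' + a' * c) ^ 2 - 4 * (a * a') * (c * c') = d ^ 2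
    linear_combination (a * c' - a' * c + d) * hdt
  · rintro ⟨a, a', c, c'⟩ ⟨⟨pa, pa', hdt, pX, pY⟩, hs⟩ ⟨a1, a1', c1, c1'⟩
      ⟨⟨pa1, pa1', hdt1, pX1, pY1⟩, hs1⟩ e
    simp only at pa pa' hdt pX pY pa1 pa1' hdt1 pX1 pY1
    have hc : IsCoprime a c := hcop hdt hs
    have hc1 : IsCoprime a1 c1 := hcop hdt1 hs1
    simp only [fo, Prod.mk.injEq] at e
    obtain ⟨e1, e2, e3⟩ := e
    obtain ⟨k1, k2, k3, k4⟩ := inj_gen pa' pa1' hc hc1 hdt hdt1 pa e1 e2
    rw [k1, k2, k3, k4]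
  · rintro ⟨a0, B, C⟩ ⟨⟨hdd, ha0, hN⟩, hs⟩
    simp only at hdd ha0 hN
    have hpar : (2 : ℤ) ∣ B - d := by
      have h1 : (2 : ℤ) ∣ (B - d) * (B + d) := ⟨2 * (a0 * C), by linear_combination hdd⟩
      rcases Int.prime_two.dvd_or_dvd h1 with h2 | h2
      · exact h2
      · have e : B - d = B + d - 2 * d := by ring
        rw [e]
        exact dvd_sub h2 ⟨d, rfl⟩
    obtain ⟨γ, hγ⟩ := hpar
    have hB : B = 2 * γ + d := by linarith
    subst hB
    have hAC : a0 * C = γ * (γ + d) := by linarith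
    obtain ⟨a, a', c, c', pa, pa', ha, hc, hc', hC, hcop'⟩ := exists_fac ha0 hAC
    have hdt : a * c' - a' * c = d := by rw [← hc', ← hc]; ring
    have hs' : 0 < -(a * x + c * n) ∧ 0 < a' * x + c' * n := by
      refine sign_of pa pa' hd hn hdt ?_
      have e : a * a' * x ^ 2 + (a * c' + a' * c) * x * n + c * c' * n ^ 2 =
        a0 * x ^ 2 + (2 * γ + d) * x * n + C * n ^ 2 := by
        rw [ha, hC, ← hc', ← hc]
        ring
      rw [e]
      exact hN
    have hfo : fo (a, a', c, c') = (a0, 2 * γ + d, C) := by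
      simp only [fo, Prod.mk.injEq]
      exact ⟨ha.symm, by rw [← hc', ← hc]; ring, hC.symm⟩
    refine ⟨(a, a', c, c'), ⟨⟨pa, pa', hdt, hs'.1, hs'.2⟩, ?_⟩, hfo⟩
    rw [Function.mem_support, hfo]
    exact hs

/-- the sum over the forms is the sum over the factorizations -/
theorem sum_forms {d : ℤ} (hd : 0 < d) (x n : ℤ) (hn : 0 < n) {g : ℤ × ℤ × ℤ → ℤ}
    (hg : ∀ p : ℕ, p.Prime → (p : ℤ) ∣ d → ∀ q : ℤ × ℤ × ℤ, (p : ℤ) ∣ q.1 → (p : ℤ) ∣ q.2.2 →
      g q = 0) : ∑ᶠ q ∈ SA d x n, g q = ∑ᶠ t ∈ FF d x n, g (fo t) := by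
  rw [← finsum_mem_inter_support, ← finsum_mem_inter_support (fun t => g (fo t)) (FF d x n)]
  exact (finsum_mem_eq_of_bijOn fo (bij_fo hd x n hn hg) fun t _ => rfl).symm

/-- the sum over the factorizations is the sum over the data -/
theorem sum_fac (d n : ℕ) (hn : 0 < n) (x : ℤ) (F : ℤ × ℤ × ℤ × ℤ → ℤ)
    (G : (Σ _ : ℕ, ℕ × ℕ) → ℤ)
    (h : ∀ w ∈ (Om (d * n)).filter (Cd n (d * n) x), F (fw n (d * n) x w) = G w) :
    ∑ᶠ t ∈ FF d x n, F t = ∑ w ∈ (Om (d * n)).filter (Cd n (d * n) x), G w := by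
  rw [← finsum_mem_eq_of_bijOn (fw n (d * n) x) (bijOn n d hn x) (f := G)
    (fun w hw => (h w (by exact_mod_cast hw)).symm), finsum_mem_coe_finset]

/-- the reflection of the sums -/
theorem sum_rf (d x n : ℤ) (F G : ℤ × ℤ × ℤ × ℤ → ℤ) (h : ∀ t, F t = G (rf t)) :
    ∑ᶠ t ∈ FF d x n, F t = ∑ᶠ t ∈ FF d (-x) n, G t :=
  finsum_mem_eq_of_bijOn rf (bij_rf d x n) fun t _ => h t

end Pool.Agent.N971.C1
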