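import Pool.Agent.N971.C1.Fac
import Pool.Agent.N971.C1.Chr
import Pool.Agent.N969.P17G.Defs2
import Pool.Agent.N971.PG.C1E

/-!
# The character sums of the crossing numbers of forms of square discriminant, no level:
the general statement

`d` = the square root of the discriminant of the forms (any multiple of `A`), `gK N A` the genus
character attached to the primes of `A` (left kernel symbols `Lk N A`), `chi N' n` the character of
the cusps (right kernel symbols `Rk N' n`), `ω` any function of the two leading coefficients of the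
factorization `(a x - X y) (a' x + Y y)`.
-/

set_option autoImplicit false

namespace Pool.Agent.N971.C1

open Finset
open Pool.Agent.N969.P15 (un psp psp2 c2 Ev chE)
open Pool.Agent.N969.P17G (gen gnE psl psl2 chP chM)
open Pool.Agent.N402.P15 (q2 q2_pos two_dvd_q2 c2_congr q2_dvd8)
open Pool.Agent.N973.P15.C (inj_gen exists_fac sign_of fo jac_odd chE_odd)
open Pool.Agent.N975.ChE (c2_mul c2_pm c2_even)
open Pool.Agent.N971.PG (par_mul pe pdvd jac_zero_of_dvd jac_sq_mul jac_congr gen_dvd un_refl)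

noncomputable section

/-! ### the genus character -/

/-- the genus character -/
def gK (N A : ℕ) (q : ℤ × ℤ × ℤ) : ℤ :=
  (if 2 ∣ A then (if (2 : ℤ) ∣ q.1 then c2 N q.2.2 else c2 N q.1) else 1) *
    ∏ p ∈ A.primeFactors.erase 2, gen p q

/-- the left kernel symbols -/
def Lk (N A a a' Y X : ℕ) : ℤ :=
  ∏ p ∈ A.primeFactors, if p = 2 then psl2 N a a' Y X else psl p a a' Y X

theorem gK_zero {N A : ℕ} (hA : A ≠ 0) {p : ℕ} (hp : p.Prime) (hpA : p ∣ A) {q : ℤ × ℤ × ℤ}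
    (h1 : (p : ℤ) ∣ q.1) (h2 : (p : ℤ) ∣ q.2.2) : gK N A q = 0 := by
  unfold gK
  by_cases hp2 : p = 2
  · subst hp2
    have h1' : (2 : ℤ) ∣ q.1 := h1
    have h2' : (2 : ℤ) ∣ q.2.2 := h2
    rw [if_pos hpA, if_pos h1', c2_even _ (Int.emod_eq_zero_of_dvd h2'), zero_mul]
  · rw [Finset.prod_eq_zero (i := p), mul_zero]
    · exact Finset.mem_erase.2 ⟨hp2, Nat.mem_primeFactors.2 ⟨hp, hpA, hA⟩⟩
    · exact gen_dvd hp h1 h2

theorem gK_rf (N A : ℕ) (t : ℤ × ℤ × ℤ × ℤ) : gK N A (fo (rf t)) = gK N A (fo t) := by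
  have h : ∀ B : ℤ, gK N A ((fo t).1, B, (fo t).2.2) = gK N A (fo t) := fun B => rfl
  rw [← h (fo (rf t)).2.1]
  have e1 : (fo (rf t)).1 = (fo t).1 := by
    show t.2.1 * t.1 = t.1 * t.2.1
    ring
  have e2 : (fo (rf t)).2.2 = (fo t).2.2 := by
    show -t.2.2.2 * -t.2.2.1 = t.2.2.1 * t.2.2.2
    ring
  rw [← e1, ← e2]

theorem det_of {n d : ℕ} (hn : 0 < n) {x : ℤ} {T a a' X Y : ℕ} {c c' : ℤ}
    (f : Fc n (d * n) x T a a' X Y c c') : (a : ℤ) * c' - a' * c = d := by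
  have hm' : (n : ℤ) ≠ 0 := by exact_mod_cast hn.ne'
  have e1 : (n : ℤ) * (a * c' - a' * c) = n * d := by
    have := f.h3
    push_cast at this
    linear_combination this - a * f.hc' + a' * f.hc
  exact mul_left_cancel₀ hm' e1

theorem gen_psl {n N : ℕ} {x : ℤ} {T a a' X Y : ℕ} {c c' : ℤ} (f : Fc n N x T a a' X Y c c')
    {p : ℕ} (hpp : p.Prime) {d : ℤ} (hdet : (a : ℤ) * c' - a' * c = d) (hpd : (p : ℤ) ∣ d)
    (hpn : IsCoprime (n : ℤ) (p : ℤ)) : gen p (fo ((a : ℤ), (a' : ℤ), c, c')) = psl p a a' Y X := by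
  have hpP : Prime (p : ℤ) := Nat.prime_iff_prime_int.1 hpp
  unfold gen psl fo
  simp only
  by_cases h1 : p ∣ a ∧ p ∣ a'
  · have h2 : (p : ℤ) ∣ (a : ℤ) * a' := Dvd.dvd.mul_right (by exact_mod_cast h1.1) _
    rw [if_pos h2, if_pos h1, ← jac_sq_mul (y := c * c') hpn]
    refine jac_congr ?_
    have ha : (p : ℤ) ∣ (a : ℤ) := by exact_mod_cast h1.1
    have ha' : (p : ℤ) ∣ (a' : ℤ) := by exact_mod_cast h1.2
    have e : (n : ℤ) ^ 2 * (c * c') - (-((X * Y : ℕ) : ℤ)) = a' * (x * X + a * x ^ 2) - a * (x * Y) := by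
      push_cast
      have e1 := f.hc
      have e2 := f.hc'
      linear_combination (-(n : ℤ) * c') * e1 + ((X : ℤ) + a * x) * e2
    rw [e]
    exact dvd_sub (ha'.mul_right _) (ha.mul_right _)
  · rw [if_neg h1]
    by_cases h2 : (p : ℤ) ∣ (a : ℤ) * a'
    · rw [if_pos h2]
      have h3 : jacobiSym ((a * a' : ℕ) : ℤ) p = 0 := by
        refine jac_zero_of_dvd hpp ?_
        push_cast
        exact h2
      rw [h3]
      refine jac_zero_of_dvd hpp ?_
      obtain ⟨q1, q2⟩ := pdvd hpp hdet hpd h2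
      rcases hpP.dvd_or_dvd h2 with h4 | h4
      · rcases hpP.dvd_or_dvd q2 with h6 | h6
        · exact absurd ⟨by exact_mod_cast h4, by exact_mod_cast h6⟩ h1
        · exact h6.mul_right _
      · rcases hpP.dvd_or_dvd q1 with h6 | h6
        · exact absurd ⟨by exact_mod_cast h6, by exact_mod_cast h4⟩ h1
        · exact h6.mul_left _
    · rw [if_neg h2]
      push_cast
      rfl

theorem c2_eq_of {N : ℕ} {y z s k : ℤ} (hs : s % 2 = 1) (hy : y % 2 = 1)
    (hz : z % 2 = 1) (hk : (q2 N : ℤ) ∣ k) (h : y * z = s * (s + k)) : c2 N y = c2 N z := by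
  have h1 : c2 N (s * s) = c2 N (y * z) := by
    refine c2_congr N ?_
    rw [h]
    have e : s * s - s * (s + k) = -(s * k) := by ring
    rw [e]
    exact (hk.mul_left s).neg_right
  have h3 : c2 N (s * s) = 1 := by
    rw [c2_mul]
    rcases c2_pm N hs with h1 | h1 <;> rw [h1] <;> norm_num
  rw [h3, c2_mul] at h1
  rcases c2_pm N hy with h2 | h2 <;> rcases c2_pm N hz with h3 | h3 <;>
    rw [h2, h3] at h1 ⊢ <;> norm_num at h1

theorem k2_psl {n M : ℕ} {x : ℤ} {T a a' X Y : ℕ} {c c' : ℤ} (f : Fc n M x T a a' X Y c c')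
    {N : ℕ} (hn : n % 2 = 1) {d : ℤ} (hd : (q2 N : ℤ) ∣ d)
    (hdet : (a : ℤ) * c' - a' * c = d) :
    (if (2 : ℤ) ∣ (a : ℤ) * a' then c2 N (c * c') else c2 N ((a : ℤ) * a')) = psl2 N a a' Y X := by
  unfold psl2
  have hd2 : (2 : ℤ) ∣ d := Dvd.dvd.trans (by exact_mod_cast two_dvd_q2 N) hd
  have hdet2 : ((a : ℤ) * c' - a' * c) % 2 = 0 := by
    rw [hdet]; exact Int.emod_eq_zero_of_dvd hd2
  have p1 := pe a a'
  have p2 := pe a c'
  have p3 := pe a' c
  have p4 := pe c c'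
  by_cases h1 : a % 2 = 1 ∧ a' % 2 = 1
  · have h2 : ¬ (2 : ℤ) ∣ (a : ℤ) * a' := by omega
    rw [if_neg h2, if_pos h1]
    push_cast
    rfl
  · have h2 : (2 : ℤ) ∣ (a : ℤ) * a' := by omega
    rw [if_pos h2, if_neg h1]
    by_cases h3 : a % 2 = 0 ∧ a' % 2 = 0
    · rw [if_pos h3]
      have eX : -(X : ℤ) = a * x + n * c := by linear_combination f.hc
      have eY : (Y : ℤ) = a' * x + n * c' := by linear_combination f.hc'
      have eXY : -((X * Y : ℕ) : ℤ) = (a * x + n * c) * (a' * x + n * c') := by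
        push_cast
        rw [← eX, ← eY]
        ring
      have q1 := pe a x
      have q2' := pe a' x
      have q3 := pe n c
      have q4 := pe n c'
      rw [eXY]
      by_cases hcc : (c * c') % 2 = 1
      · obtain ⟨hc, hc'⟩ := par_mul.1 hcc
        refine (c2_eq_of (s := a' * c * x + n * (c * c')) (k := d * x) ?_ ?_ hcc
          (hd.mul_right x) ?_).symm
        · have q5 := pe a' (c * x)
          have q6 := pe n (c * c')
          have e5 : (a' : ℤ) * c * x = a' * (c * x) := by ring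
          rw [e5]
          omega
        · rw [par_mul]
          omega
        · linear_combination ((a' * c * x + n * (c * c')) * x) * hdet
      · have hcc0 : (c * c') % 2 = 0 := by omega
        rw [c2_even _ hcc0]
        symm
        apply c2_even
        by_contra h5
        have h6 : (((a : ℤ) * x + n * c) * (a' * x + n * c')) % 2 = 1 := by omega
        obtain ⟨h7, h8⟩ := par_mul.1 h6
        omega
    · rw [if_neg h3]
      apply c2_even
      omega

/-- the weight of the data -/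
theorem gK_data {N A n d : ℕ} (hA : A ≠ 0) (hAd : A ∣ d) (h2 : 2 ∣ A → q2 N ∣ d) (hn : 0 < n)
    (hcop : Nat.Coprime A n) (x : ℤ) {w : Σ _ : ℕ, ℕ × ℕ}
    (hw : w ∈ (Om (d * n)).filter (Cd n (d * n) x)) :
    gK N A (fo (fw n (d * n) x w)) =
      Lk N A w.2.1 w.2.2 ((d * n - w.1) / w.2.1) (w.1 / w.2.2) := by
  obtain ⟨T, a, a'⟩ := w
  rw [Finset.mem_filter] at hw
  obtain ⟨X, Y, c, c', f, hf⟩ := facts n (d * n) hn x T a a' hw.1 hw.2
  rw [hf]
  have hdet := det_of hn f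
  simp only [f.hX, f.hY]
  have key : ∀ p ∈ A.primeFactors.erase 2, gen p (fo ((a : ℤ), (a' : ℤ), c, c')) =
      psl p a a' Y X := by
    intro p hp
    rw [Finset.mem_erase] at hp
    have hpp := Nat.prime_of_mem_primeFactors hp.2
    have hpA := Nat.dvd_of_mem_primeFactors hp.2
    refine gen_psl f hpp hdet (by exact_mod_cast hpA.trans hAd) ?_
    refine Nat.isCoprime_iff_coprime.2 ?_
    exact (Nat.Coprime.coprime_dvd_left hpA hcop).symm
  unfold gK Lk
  rw [Finset.prod_congr rfl key]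
  by_cases h : 2 ∣ A
  · have h2mem : 2 ∈ A.primeFactors := Nat.mem_primeFactors.2 ⟨Nat.prime_two, h, hA⟩
    have hn2 : n % 2 = 1 := by
      have h3 : Nat.Coprime 2 n := Nat.Coprime.coprime_dvd_left h hcop
      exact Nat.odd_iff.1 (Nat.coprime_two_left.1 h3)
    rw [if_pos h, ← Finset.mul_prod_erase _ _ h2mem, if_pos rfl]
    congr 1
    · exact k2_psl f hn2 (by exact_mod_cast h2 h) hdet
    · refine Finset.prod_congr rfl fun p hp => ?_
      rw [Finset.mem_erase] at hp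
      rw [if_neg hp.1]
  · have he : A.primeFactors.erase 2 = A.primeFactors :=
      Finset.erase_eq_of_notMem fun h3 => h (Nat.dvd_of_mem_primeFactors h3)
    rw [if_neg h, one_mul, he]
    refine Finset.prod_congr rfl fun p hp => ?_
    rw [if_neg]
    rintro rfl
    exact h (Nat.dvd_of_mem_primeFactors hp)

/-! ### the sums -/

/-- the weighted sum over the factorizations -/
def GG (ω : ℤ → ℤ → ℤ) (N A : ℕ) (d x n : ℤ) : ℤ :=
  ∑ᶠ t ∈ FF d x n, ω t.1 t.2.1 * gK N A (fo t)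

/-- the hypotheses -/
structure Hy (N A d n : ℕ) : Prop where
  A0 : A ≠ 0
  Ad : A ∣ d
  h2 : 2 ∣ A → q2 N ∣ d
  n0 : 0 < n
  cop : Nat.Coprime A n

theorem GG_data (ω : ℤ → ℤ → ℤ) {N A n d : ℕ} (H : Hy N A d n) (x : ℤ) :
    GG ω N A d x n = ∑ w ∈ (Om (d * n)).filter (Cd n (d * n) x), ω w.2.1 w.2.2 *
      Lk N A w.2.1 w.2.2 ((d * n - w.1) / w.2.1) (w.1 / w.2.2) := by
  unfold GG
  refine sum_fac d n H.n0 x _ _ fun w hw => ?_
  rw [gK_data H.A0 H.Ad H.h2 H.n0 H.cop x hw]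
  rfl

theorem GG_shift (ω : ℤ → ℤ → ℤ) {N A n d : ℕ} (H : Hy N A d n) (x k : ℤ) :
    GG ω N A d (x + n * k) n = GG ω N A d x n := by
  rw [GG_data ω H, GG_data ω H]
  refine Finset.sum_congr ?_ fun w _ => rfl
  ext w
  rw [Finset.mem_filter, Finset.mem_filter, Cd_shift]

/-- the divisor sum -/
def WW (ω : ℤ → ℤ → ℤ) (N A N' n S T : ℕ) : ℤ := ∑ a ∈ S.divisors, ∑ a' ∈ T.divisors,
  ω a a' * (Lk N A a a' (S / a) (T / a') * Rk N' n a a' (S / a) (T / a'))

/-- **the character sum of the factorizations** -/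
theorem GG_sum (ω : ℤ → ℤ → ℤ) {N A n d N' : ℕ} (H : Hy N A d n) (hn : Md N' n)
    (hpM : ∀ p ∈ n.primeFactors.erase 2, ¬ p ^ 2 ∣ d * n) :
    ∑ u ∈ un n, chi N' n u * GG ω N A d u n =
      ∑ T ∈ range (d * n), WW ω N A N' n (d * n - T) T := by
  have h1 : ∀ u ∈ un n, chi N' n u * GG ω N A d u n =
      ∑ w ∈ Om (d * n), (if Cd n (d * n) u w then (ω w.2.1 w.2.2 *
      Lk N A w.2.1 w.2.2 ((d * n - w.1) / w.2.1) (w.1 / w.2.2)) * chi N' n u else 0) := by
    intro u _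
    rw [GG_data ω H, Finset.mul_sum, Finset.sum_filter]
    refine Finset.sum_congr rfl fun w _ => ?_
    split_ifs <;> ring
  rw [Finset.sum_congr rfl h1, Finset.sum_comm]
  have h2 : ∀ w ∈ Om (d * n), ∑ u ∈ un n,
      (if Cd n (d * n) u w then (ω w.2.1 w.2.2 *
      Lk N A w.2.1 w.2.2 ((d * n - w.1) / w.2.1) (w.1 / w.2.2)) * chi N' n u else 0) =
      ω w.2.1 w.2.2 * (Lk N A w.2.1 w.2.2 ((d * n - w.1) / w.2.1) (w.1 / w.2.2) *
        Rk N' n w.2.1 w.2.2 ((d * n - w.1) / w.2.1) (w.1 / w.2.2)) := by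
    rintro ⟨T, a, a'⟩ hw
    have hw' := hw
    unfold Om at hw'
    simp only [Finset.mem_sigma, Finset.mem_range, Finset.mem_product,
      Nat.mem_divisors] at hw'
    obtain ⟨hT, ⟨h3, h4⟩, ⟨h5, h6⟩⟩ := hw'
    have hdet : a * ((d * n - T) / a) + a' * (T / a') = d * n := by
      rw [Nat.mul_div_cancel' h3, Nat.mul_div_cancel' h5]
      omega
    have key := sum_chi hn (M := d * n) (Dvd.intro_left d rfl) hpM a a' (T / a')
      ((d * n - T) / a) hdet
    simp only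
    rw [← key, ← mul_assoc, Finset.sum_filter, Finset.mul_sum]
    refine Finset.sum_congr rfl fun u _ => ?_
    by_cases hC : Cd n (d * n) u ⟨T, (a, a')⟩
    · rw [if_pos hC]
      congr 1
      exact (if_pos hC).symm
    · rw [if_neg hC]
      have h0 : (if (n : ℤ) ∣ (a : ℤ) * (u : ℤ) + ((T / a' : ℕ) : ℤ) ∧
          (n : ℤ) ∣ (a' : ℤ) * (u : ℤ) - (((d * n - T) / a : ℕ) : ℤ) then chi N' n u else 0) = 0 :=
        if_neg hC
      rw [h0, mul_zero]
  rw [Finset.sum_congr rfl h2]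
  unfold WW Om
  rw [Finset.sum_sigma]
  refine Finset.sum_congr rfl fun T _ => ?_
  rw [Finset.sum_product]

/-- the odd character and the reflection -/
theorem GG_odd (ω : ℤ → ℤ → ℤ) {N A n d : ℕ} (H : Hy N A d n) (hn : 1 < n) {χ : ℤ → ℤ}
    (hχ : ∀ u : ℤ, χ ((n : ℤ) - u) = -χ u) :
    ∑ u ∈ un n, χ u * GG ω N A d (-(u : ℤ)) n = -∑ u ∈ un n, χ u * GG ω N A d u n := by
  have h1 := un_refl hn (fun u => χ u * GG ω N A d (-u) n)
  rw [← h1, ← Finset.sum_neg_distrib]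
  refine Finset.sum_congr rfl fun u _ => ?_
  rw [hχ]
  have e : -((n : ℤ) - u) = (u : ℤ) + n * (-1) := by ring
  rw [e, GG_shift ω H]
  ring

/-- the even character and the reflection -/
theorem GG_even (ω : ℤ → ℤ → ℤ) {N A n d : ℕ} (H : Hy N A d n) (hn : 1 < n) {χ : ℤ → ℤ}
    (hχ : ∀ u : ℤ, χ ((n : ℤ) - u) = χ u) :
    ∑ u ∈ un n, χ u * GG ω N A d (-(u : ℤ)) n = ∑ u ∈ un n, χ u * GG ω N A d u n := by
  have h1 := un_refl hn (fun u => χ u * GG ω N A d (-u) n)
  rw [← h1]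
  refine Finset.sum_congr rfl fun u _ => ?_
  rw [hχ]
  have e : -((n : ℤ) - u) = (u : ℤ) + n * (-1) := by ring
  rw [e, GG_shift ω H]

/-- the crossing number of a weight which is antisymmetric in the factors -/
theorem cross {N A d : ℕ} (hA : A ≠ 0) (hd : 0 < d) (hdA : ∀ p : ℕ, p.Prime → p ∣ d → p ∣ A)
    {W : ℤ × ℤ × ℤ → ℤ} {ω : ℤ → ℤ → ℤ} {ε : ℤ}
    (hW : ∀ a a' c c' : ℤ, a * c' - a' * c = d → gK N A (fo (a, a', c, c')) ≠ 0 →
      W (fo (a, a', c, c')) = ω a a' + ε * ω a' a) (x : ℤ) {n : ℕ} (hn : 0 < n) :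
    ∑ᶠ q ∈ SA d x n, W q * gK N A q = GG ω N A d x n + ε * GG ω N A d (-x) n := by
  have hd' : (0 : ℤ) < d := by exact_mod_cast hd
  have hn' : (0 : ℤ) < n := by exact_mod_cast hn
  rw [sum_forms hd' x n hn' (g := fun q => W q * gK N A q)]
  · have hf := FF_fin n d hn x
    have e1 : GG ω N A d (-x) n = ∑ᶠ t ∈ FF d x n, ω t.2.1 t.1 * gK N A (fo t) := by
      unfold GG
      refine (sum_rf d x n _ _ fun t => ?_).symm
      rw [gK_rf]
      rfl
    rw [e1]
    unfold GG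
    rw [mul_finsum_mem, ← finsum_mem_add_distrib hf]
    refine finsum_mem_congr rfl fun t ht => ?_
    by_cases h0 : gK N A (fo t) = 0
    · rw [h0]; ring
    · rw [hW t.1 t.2.1 t.2.2.1 t.2.2.2 ht.2.2.1 h0]
      ring
  · intro p hp hpd q h1 h2
    have h3 : p ∣ d := by exact_mod_cast hpd
    rw [gK_zero hA hp (hdA p hp h3) h1 h2, mul_zero]

end

end Pool.Agent.N971.C1
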